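import Pool.Agent.Helper557.Rz.M_glue

/-!
Abstract versions (for a measurable space with finitely many invertible measurable maps) of the
thickening, draining and exhaustion lemmas of the files in `Helper557/Rz`.
-/

set_option autoImplicit false

open MeasureTheory Set

namespace Pool.Agent.H970Z.Rz

open Pool.Agent.Helper557.Rz

variable {X : Type} {k : ℕ}

/-- one thickening step -/
def gstep (T : Fin k → X ≃ X) (A : Set X) : Set X :=
  A ∪ ⋃ i, ((T i).symm ⁻¹' A ∪ T i ⁻¹' A)

/-- iterated thickening -/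
def gT (T : Fin k → X ≃ X) (P : Set X) : ℕ → Set X
  | 0 => P
  | r + 1 => gstep T (gT T P r)

theorem gT_closed [TopologicalSpace X] (T : Fin k → X ≃ X) (h1 : ∀ i, Continuous (T i))
    (h2 : ∀ i, Continuous (T i).symm) (P : Set X) (hP : IsClosed P) (r : ℕ) :
    IsClosed (gT T P r) := by
  induction r with
  | zero => exact hP
  | succ r ih =>
    refine ih.union (isClosed_iUnion_of_finite (fun i => ?_))
    exact (ih.preimage (h2 i)).union (ih.preimage (h1 i))

theorem gT_measurable [MeasurableSpace X] (T : Fin k → X ≃ X) (h1 : ∀ i, Measurable (T i))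
    (h2 : ∀ i, Measurable (T i).symm) (P : Set X) (hP : MeasurableSet P) (r : ℕ) :
    MeasurableSet (gT T P r) := by
  induction r with
  | zero => exact hP
  | succ r ih =>
    refine ih.union (MeasurableSet.iUnion (fun i => ?_))
    exact (h2 i ih).union (h1 i ih)

theorem gT_preimage {Y : Type} (T : Fin k → X ≃ X) (T' : Fin k → Y ≃ Y) (φ : Y → X)
    (h : ∀ i y, φ (T' i y) = T i (φ y)) (P : Set X) (r : ℕ) :
    φ ⁻¹' gT T P r = gT T' (φ ⁻¹' P) r := by
  have h' : ∀ i y, φ ((T' i).symm y) = (T i).symm (φ y) := by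
    intro i y
    rw [Equiv.eq_symm_apply, ← h, Equiv.apply_symm_apply]
  induction r with
  | zero => rfl
  | succ r ih =>
    ext y
    simp only [gT, gstep, ← ih, mem_preimage, mem_union, mem_iUnion, h, h']

theorem gT_inter (T : Fin k → X ≃ X) (Z : Set X) (hZ : ∀ i x, T i x ∈ Z ↔ x ∈ Z) (P : Set X)
    (r : ℕ) : gT T (P ∩ Z) r ⊆ gT T P r ∩ Z := by
  have hZ' : ∀ i x, (T i).symm x ∈ Z ↔ x ∈ Z := by
    intro i x
    rw [← hZ i, Equiv.apply_symm_apply]
  induction r with
  | zero => exact le_rfl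
  | succ r ih =>
    rintro x (hx | hx)
    · exact ⟨Or.inl (ih hx).1, (ih hx).2⟩
    · obtain ⟨i, hx | hx⟩ := mem_iUnion.1 hx
      · exact ⟨Or.inr (mem_iUnion.2 ⟨i, Or.inl (ih hx).1⟩), (hZ' i x).1 (ih hx).2⟩
      · exact ⟨Or.inr (mem_iUnion.2 ⟨i, Or.inr (ih hx).1⟩), (hZ i x).1 (ih hx).2⟩

theorem gT_meas [MeasurableSpace X] (μ : Measure X) (T : Fin k → X ≃ X)
    (h1 : ∀ i, MeasurePreserving (T i) μ μ) (h2 : ∀ i, MeasurePreserving (T i).symm μ μ)
    (P : Set X) (hP : MeasurableSet P)
    (r : ℕ) : μ (gT T P r) ≤ ((1 + 2 * k : ℕ) : ENNReal) ^ r * μ P := by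
  induction r with
  | zero => simp [gT]
  | succ r ih =>
    have hA : MeasurableSet (gT T P r) :=
      gT_measurable T (fun i => (h1 i).measurable) (fun i => (h2 i).measurable) P hP r
    calc μ (gT T P (r + 1))
        ≤ μ (gT T P r) + μ (⋃ i, ((T i).symm ⁻¹' (gT T P r) ∪
            T i ⁻¹' (gT T P r))) := measure_union_le _ _
      _ ≤ μ (gT T P r) + ∑ i, μ ((T i).symm ⁻¹' (gT T P r) ∪
            T i ⁻¹' (gT T P r)) := by
          gcongr
          exact measure_iUnion_fintype_le _ _
      _ ≤ μ (gT T P r) + ∑ _i : Fin k, (μ (gT T P r) + μ (gT T P r)) := by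
          gcongr with i
          refine (measure_union_le _ _).trans ?_
          rw [(h2 i).measure_preimage hA.nullMeasurableSet,
            (h1 i).measure_preimage hA.nullMeasurableSet]
      _ = ((1 + 2 * k : ℕ) : ENNReal) * μ (gT T P r) := by
          rw [Finset.sum_const, Finset.card_univ, Fintype.card_fin, nsmul_eq_mul]
          push_cast
          ring
      _ ≤ ((1 + 2 * k : ℕ) : ENNReal) * (((1 + 2 * k : ℕ) : ENNReal) ^ r * μ P) := by gcongr
      _ = ((1 + 2 * k : ℕ) : ENNReal) ^ (r + 1) * μ P := by ring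

theorem gT_mono (T : Fin k → X ≃ X) (P : Set X) {r s : ℕ} (h : r ≤ s) :
    gT T P r ⊆ gT T P s := by
  induction h with
  | refl => exact le_rfl
  | step h ih => exact ih.trans subset_union_left

theorem gT_fwd (T : Fin k → X ≃ X) (P : Set X) (r : ℕ) (i : Fin k) (x : X)
    (h : x ∈ gT T P r) : T i x ∈ gT T P (r + 1) := by
  refine Or.inr (mem_iUnion.2 ⟨i, Or.inl ?_⟩)
  rw [mem_preimage, Equiv.symm_apply_apply]
  exact h

theorem gT_bwd (T : Fin k → X ≃ X) (P : Set X) (r : ℕ) (i : Fin k) (x : X)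
    (h : T i x ∈ gT T P r) : x ∈ gT T P (r + 1) :=
  Or.inr (mem_iUnion.2 ⟨i, Or.inr h⟩)

/-- the weight -/
noncomputable def gw (T : Fin k → X ≃ X) (P : Set X) (N : ℕ) (x : X) : ℝ :=
  (1 / (N : ℝ)) * ∑ r ∈ Finset.range N, (gT T P r).indicator (fun _ => (1 : ℝ)) x

theorem gw_nonneg (T : Fin k → X ≃ X) (P : Set X) (N : ℕ) (x : X) :
    0 ≤ gw T P N x :=
  mul_nonneg (by positivity) (Finset.sum_nonneg (fun r _ => (ind01_8881 _ _).1))

theorem gw_le (T : Fin k → X ≃ X) (P : Set X) (N : ℕ) (hN : 1 ≤ N) (x : X) :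
    gw T P N x ≤ 1 := by
  have hN' : (0 : ℝ) < N := by exact_mod_cast hN
  have h : ∑ r ∈ Finset.range N, (gT T P r).indicator (fun _ => (1 : ℝ)) x ≤ N := by
    calc _ ≤ ∑ r ∈ Finset.range N, (1 : ℝ) := Finset.sum_le_sum (fun r _ => (ind01_8881 _ _).2)
      _ = N := by simp
  unfold gw
  rw [one_div, inv_mul_le_iff₀ hN', mul_one]
  exact h

theorem gw_eq_one (T : Fin k → X ≃ X) (P : Set X) (N : ℕ) (hN : 1 ≤ N) (x : X)
    (hx : x ∈ P) : gw T P N x = 1 := by
  have hN' : (0 : ℝ) < N := by exact_mod_cast hN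
  have h : ∑ r ∈ Finset.range N, (gT T P r).indicator (fun _ => (1 : ℝ)) x = N := by
    calc _ = ∑ r ∈ Finset.range N, (1 : ℝ) := Finset.sum_congr rfl (fun r _ => by
          rw [indicator_of_mem]
          exact gT_mono T P (Nat.zero_le r) hx)
      _ = N := by simp
  unfold gw
  rw [h, one_div, inv_mul_cancel₀ hN'.ne']

theorem gw_meas [MeasurableSpace X] (T : Fin k → X ≃ X) (h1 : ∀ i, Measurable (T i))
    (h2 : ∀ i, Measurable (T i).symm) (P : Set X) (hP : MeasurableSet P) (N : ℕ) :
    Measurable (gw T P N) := by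
  refine Measurable.const_mul ?_ _
  refine Finset.measurable_sum _ (fun r _ => ?_)
  exact measurable_const.indicator (gT_measurable T h1 h2 P hP r)

theorem gw_ne (T : Fin k → X ≃ X) (P : Set X) (N : ℕ) (x : X)
    (hx : gw T P N x ≠ 0) : x ∈ gT T P N := by
  by_contra hcon
  apply hx
  unfold gw
  rw [Finset.sum_eq_zero, mul_zero]
  intro r hr
  rw [indicator_of_notMem]
  intro h
  exact hcon (gT_mono T P (Finset.mem_range.1 hr).le h)

theorem gw_lip (T : Fin k → X ≃ X) (P : Set X) (N : ℕ) (hN : 1 ≤ N) (i : Fin k)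
    (x : X) : |gw T P N (T i x) - gw T P N x| ≤ 1 / N := by
  have hN' : (0 : ℝ) < N := by exact_mod_cast hN
  unfold gw
  rw [← mul_sub, abs_mul, abs_of_pos (by positivity)]
  have key : |∑ r ∈ Finset.range N, (gT T P r).indicator (fun _ => (1 : ℝ)) (T i x) -
      ∑ r ∈ Finset.range N, (gT T P r).indicator (fun _ => (1 : ℝ)) x| ≤ 1 := by
    have h1 := sum_shift8881 (fun r => (gT T P r).indicator (fun _ => (1 : ℝ)) x)
      (fun r => (gT T P r).indicator (fun _ => (1 : ℝ)) (T i x))
      (fun r => ind01_8881 _ _) (fun r => by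
        by_cases h : T i x ∈ gT T P r
        · rw [indicator_of_mem h, indicator_of_mem (gT_bwd T P r i x h)]
        · rw [indicator_of_notMem h]; exact (ind01_8881 _ _).1) N
    have h2 := sum_shift8881 (fun r => (gT T P r).indicator (fun _ => (1 : ℝ)) (T i x))
      (fun r => (gT T P r).indicator (fun _ => (1 : ℝ)) x)
      (fun r => ind01_8881 _ _) (fun r => by
        by_cases h : x ∈ gT T P r
        · rw [indicator_of_mem h, indicator_of_mem (gT_fwd T P r i x h)]
        · rw [indicator_of_notMem h]; exact (ind01_8881 _ _).1) N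
    simp only at h1 h2
    rw [abs_le]
    constructor <;> linarith
  calc 1 / (N : ℝ) * _ ≤ 1 / N * 1 := by gcongr
    _ = 1 / N := mul_one _

/-- A finite, finitely additive, non-negative set function invariant under the maps `T i`. -/
structure FA [MeasurableSpace X] (T : Fin k → X ≃ X) (m : Set X → ℝ) : Prop where
  nonneg : ∀ A, MeasurableSet A → 0 ≤ m A
  add : ∀ A B, MeasurableSet A → MeasurableSet B → Disjoint A B → m (A ∪ B) = m A + m B
  inv : ∀ (i : Fin k) (A : Set X), MeasurableSet A → m (T i ⁻¹' A) = m A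

theorem fa_flow [MeasurableSpace X] (T : Fin k → X ≃ X) (hrot : ∀ i, Measurable (T i))
    (m : Set X → ℝ) (hm : FA T m)
    (U : Set X) (hU : MeasurableSet U) (F : Fin k → X → ℝ) (hF : ∀ i, Measurable (F i))
    (C : ℝ) (hC : ∀ i x, |F i x| ≤ C) (ε : ℝ)
    (h : ∀ x, ∑ i, (F i (T i x) - F i x) ≤ ε - U.indicator (fun _ => (1 : ℝ)) x) :
    m U ≤ ε * m univ := by
  -- main estimate
  have main : ∀ N : ℕ, (N : ℝ) * (m U - ε * m univ) ≤ k * m univ := by
    intro N
    set M : ℕ := ⌊2 * C * N⌋₊ + 1 with hM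
    set n : Fin k → X → ℕ := fun i x => ⌊(N : ℝ) * (F i x + C)⌋₊ with hn
    have hpos : ∀ i x, 0 ≤ (N : ℝ) * (F i x + C) := by
      intro i x
      have := (abs_le.1 (hC i x)).1
      exact mul_nonneg (Nat.cast_nonneg _) (by linarith)
    have hnM : ∀ i x, n i x ≤ M := by
      intro i x
      have h1 := (abs_le.1 (hC i x)).2
      have h2 : (N : ℝ) * (F i x + C) ≤ 2 * C * N := by
        have : (0 : ℝ) ≤ N := Nat.cast_nonneg _
        nlinarith
      exact (Nat.floor_le_floor h2).trans (Nat.le_succ _)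
    have hnmeas : ∀ i, Measurable (n i) := fun i =>
      Nat.measurable_floor.comp (measurable_const.mul ((hF i).add_const C))
    set B : Fin k → Fin M → Set X := fun i v => {x | (v : ℕ) + 1 ≤ n i x} with hB
    have hBm : ∀ i v, MeasurableSet (B i v) := fun i v =>
      measurableSet_le measurable_const (hnmeas i)
    have hBind : ∀ i x, ∑ v, (B i v).indicator (fun _ => (1 : ℝ)) x = n i x := by
      intro i x
      rw [← sum_level M (n i x) (hnM i x)]
      refine Finset.sum_congr rfl fun v _ => ?_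
      by_cases hv : (v : ℕ) + 1 ≤ n i x
      · rw [Set.indicator_of_mem (show x ∈ B i v from hv), if_pos hv]
      · rw [Set.indicator_of_notMem (show x ∉ B i v from hv), if_neg hv]
    let A : Fin 2 ⊕ (Fin k × Fin M × Fin 2) → Set X := fun j =>
      match j with
      | Sum.inl a => if a = 0 then Set.univ else U
      | Sum.inr (i, v, b) => if b = 0 then T i ⁻¹' (B i v) else B i v
    let c : Fin 2 ⊕ (Fin k × Fin M × Fin 2) → ℝ := fun j =>
      match j with
      | Sum.inl a => if a = 0 then (N * ε + k) else -(N : ℝ)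
      | Sum.inr (_, _, b) => if b = 0 then -1 else 1
    have hA : ∀ j, MeasurableSet (A j) := by
      rintro (a | ⟨i, v, b⟩)
      · show MeasurableSet (if a = 0 then Set.univ else U)
        split_ifs
        · exact MeasurableSet.univ
        · exact hU
      · show MeasurableSet (if b = 0 then T i ⁻¹' (B i v) else B i v)
        split_ifs
        · exact (hrot i) (hBm i v)
        · exact hBm i v
    have key := fa_pos m hm.nonneg hm.add A hA c ?_
    · have e : ∑ j, c j * m (A j) = (N * ε + k) * m Set.univ + -(N : ℝ) * m U := by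
        rw [Fintype.sum_sum_type, Fin.sum_univ_two]
        have : ∑ p : Fin k × Fin M × Fin 2, c (Sum.inr p) * m (A (Sum.inr p)) = 0 := by
          rw [Fintype.sum_prod_type]
          refine Finset.sum_eq_zero fun i _ => ?_
          rw [Fintype.sum_prod_type]
          refine Finset.sum_eq_zero fun v _ => ?_
          rw [Fin.sum_univ_two]
          show -1 * m (T i ⁻¹' (B i v)) + 1 * m (B i v) = 0
          rw [hm.inv i (B i v) (hBm i v)]
          ring
        rw [this, add_zero]
        rfl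
      rw [e] at key
      nlinarith
    · intro x
      have e : ∑ j, c j * (A j).indicator (fun _ => (1 : ℝ)) x
          = (N * ε + k) * 1 + -(N : ℝ) * U.indicator (fun _ => (1 : ℝ)) x
            - ∑ i, ((n i (T i x) : ℝ) - n i x) := by
        rw [Fintype.sum_sum_type, Fin.sum_univ_two]
        have : ∑ p : Fin k × Fin M × Fin 2,
            c (Sum.inr p) * (A (Sum.inr p)).indicator (fun _ => (1 : ℝ)) x
            = - ∑ i, ((n i (T i x) : ℝ) - n i x) := by
          rw [Fintype.sum_prod_type, ← Finset.sum_neg_distrib]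
          refine Finset.sum_congr rfl fun i _ => ?_
          rw [Fintype.sum_prod_type]
          rw [← hBind i x, ← hBind i (T i x), ← Finset.sum_sub_distrib,
            ← Finset.sum_neg_distrib]
          refine Finset.sum_congr rfl fun v _ => ?_
          rw [Fin.sum_univ_two]
          show -1 * (T i ⁻¹' (B i v)).indicator (fun _ => (1 : ℝ)) x
            + 1 * (B i v).indicator (fun _ => (1 : ℝ)) x = _
          have : (T i ⁻¹' (B i v)).indicator (fun _ => (1 : ℝ)) x
              = (B i v).indicator (fun _ => (1 : ℝ)) (T i x) := rfl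
          rw [this]
          ring
        rw [this]
        show (N * ε + k) * (Set.univ : Set X).indicator (fun _ => (1 : ℝ)) x
          + -(N : ℝ) * U.indicator (fun _ => (1 : ℝ)) x + _ = _
        rw [Set.indicator_univ]
        ring
      rw [e]
      have h3 : ∑ i, ((n i (T i x) : ℝ) - n i x)
          ≤ ∑ i, ((N : ℝ) * (F i (T i x) - F i x) + 1) := by
        refine Finset.sum_le_sum fun i _ => ?_
        have h4 : ((n i (T i x) : ℕ) : ℝ) ≤ (N : ℝ) * (F i (T i x) + C) :=
          Nat.floor_le (hpos i _)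
        have h5 : (N : ℝ) * (F i x + C) < (n i x : ℝ) + 1 := Nat.lt_floor_add_one _
        nlinarith
      rw [Finset.sum_add_distrib, ← Finset.mul_sum] at h3
      have h6 : (N : ℝ) * ∑ i, (F i (T i x) - F i x)
          ≤ N * (ε - U.indicator (fun _ => (1 : ℝ)) x) :=
        mul_le_mul_of_nonneg_left (h x) (Nat.cast_nonneg _)
      simp only [Finset.sum_const, Finset.card_univ, Fintype.card_fin, nsmul_eq_mul, mul_one] at h3
      nlinarith
  by_contra hcon
  push Not at hcon
  have hpos : 0 < m U - ε * m univ := by linarith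
  obtain ⟨N, hN⟩ := exists_nat_gt ((k : ℝ) * m univ / (m U - ε * m univ))
  have := main N
  rw [div_lt_iff₀ hpos] at hN
  linarith


theorem glue_abs [MeasurableSpace X] (T : Fin k → X ≃ X) (h1 : ∀ i, Measurable (T i))
    (h2 : ∀ i, Measurable (T i).symm) (C : ℝ) (hC : 0 < C) (m : Set X → ℝ) (hm : FA T m) (ε : ℝ)
    (N : ℕ → ℕ) (hN1 : ∀ n, 1 ≤ N n)
    (hNs : ∀ M, 2 * k * C * ∑ n ∈ Finset.range M, 1 / (N n : ℝ) ≤ ε)
    (P : ℕ → Set X) (hPc : ∀ n, MeasurableSet (P n)) (f : ℕ → Fin k → X → ℝ)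
    (hfm : ∀ n i, Measurable (f n i)) (hfC : ∀ n i x, |f n i x| ≤ C)
    (hfK : ∀ n, ∀ x ∈ gT T (P n) (N n), ∑ i, (f n i (T i x) - f n i x) ≤ -1)
    (U : Set X) (hU : MeasurableSet U) (hPU : U ⊆ ⋃ n, P n) : m U ≤ ε * m univ := by
  let w : ℕ → X → ℝ := fun n x => gw T (P n) (N n) x
  have hw0 : ∀ x n, 0 ≤ w n x := fun x n => gw_nonneg _ _ _ _
  have hw1 : ∀ x n, w n x ≤ 1 := fun x n => gw_le _ _ _ (hN1 n) _
  let ρ : ℕ → X → ℝ := fun n x => w n x * ∏ j ∈ Finset.range n, (1 - w j x)
  have hρ0 : ∀ n x, 0 ≤ ρ n x := fun n x =>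
    mul_nonneg (hw0 x n) (Finset.prod_nonneg (fun j _ => sub_nonneg.2 (hw1 x j)))
  have hρs : ∀ x M, ∑ n ∈ Finset.range M, ρ n x = 1 - ∏ j ∈ Finset.range M, (1 - w j x) :=
    fun x M => rho_sum (fun n => w n x) (hw0 x) (hw1 x) M
  have hρ1 : ∀ x M, ∑ n ∈ Finset.range M, ρ n x ≤ 1 := by
    intro x M
    rw [hρs]
    have : 0 ≤ ∏ j ∈ Finset.range M, (1 - w j x) :=
      Finset.prod_nonneg (fun j _ => sub_nonneg.2 (hw1 x j))
    linarith
  have hρsum : ∀ x, Summable (fun n => ρ n x) := fun x =>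
    summable_of_sum_range_le (fun n => hρ0 n x) (hρ1 x)
  have habs : ∀ i x n, |ρ n x * f n i x| ≤ C * ρ n x := by
    intro i x n
    rw [abs_mul, abs_of_nonneg (hρ0 n x), mul_comm]
    exact mul_le_mul_of_nonneg_right (hfC n i x) (hρ0 n x)
  have hsum : ∀ i x, Summable (fun n => ρ n x * f n i x) := fun i x =>
    Summable.of_norm_bounded ((hρsum x).mul_left C) (fun n => by
      rw [Real.norm_eq_abs]; exact habs i x n)
  let F : Fin k → X → ℝ := fun i x => ∑' n, ρ n x * f n i x
  have htend : ∀ i x, Filter.Tendsto (fun M => ∑ n ∈ Finset.range M, ρ n x * f n i x) Filter.atTop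
      (nhds (F i x)) := fun i x => (hsum i x).hasSum.tendsto_sum_nat
  have hρm : ∀ n, Measurable (ρ n) := by
    intro n
    have hwm : ∀ j, Measurable (w j) := fun j => gw_meas T h1 h2 (P j) (hPc j) (N j)
    refine (hwm n).mul ?_
    refine Finset.measurable_prod _ (fun j _ => ?_)
    exact measurable_const.sub (hwm j)
  have hFm : ∀ i, Measurable (F i) := by
    intro i
    refine measurable_of_tendsto_metrizable (f := fun M x => ∑ n ∈ Finset.range M, ρ n x * f n i x)
      (fun M => ?_) (tendsto_pi_nhds.2 (fun x => htend i x))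
    refine Finset.measurable_sum _ (fun n _ => ?_)
    exact (hρm n).mul (hfm n i)
  have hFC : ∀ i x, |F i x| ≤ C := by
    intro i x
    refine le_of_tendsto (htend i x).abs (Filter.Eventually.of_forall (fun M => ?_))
    calc |∑ n ∈ Finset.range M, ρ n x * f n i x| ≤ ∑ n ∈ Finset.range M, |ρ n x * f n i x| :=
          Finset.abs_sum_le_sum_abs _ _
      _ ≤ ∑ n ∈ Finset.range M, C * ρ n x := Finset.sum_le_sum (fun n _ => habs i x n)
      _ = C * ∑ n ∈ Finset.range M, ρ n x := by rw [Finset.mul_sum]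
      _ ≤ C * 1 := by gcongr; exact hρ1 x M
      _ = C := mul_one C
  refine fa_flow T h1 m hm U hU F hFm C hFC ε (fun x => ?_)
  have hlim : Filter.Tendsto (fun M => ∑ i, ((∑ n ∈ Finset.range M, ρ n (T i x) *
      f n i (T i x)) - ∑ n ∈ Finset.range M, ρ n x * f n i x)) Filter.atTop
      (nhds (∑ i, (F i (T i x) - F i x))) :=
    tendsto_finsetSum _ (fun i _ => (htend i (T i x)).sub (htend i x))
  -- the bound for partial sums
  have hbound : ∀ M, ∑ i, ((∑ n ∈ Finset.range M, ρ n (T i x) *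
      f n i (T i x)) - ∑ n ∈ Finset.range M, ρ n x * f n i x)
      ≤ ε - ∑ n ∈ Finset.range M, ρ n x := by
    intro M
    have e1 : ∑ i, ((∑ n ∈ Finset.range M, ρ n (T i x) *
        f n i (T i x)) - ∑ n ∈ Finset.range M, ρ n x * f n i x)
        = ∑ i, (∑ n ∈ Finset.range M, (ρ n (T i x) - ρ n x) * f n i (T i x))
          + ∑ n ∈ Finset.range M, ρ n x * ∑ i, (f n i (T i x) - f n i x) := by
      have e2 : ∑ n ∈ Finset.range M, ρ n x * ∑ i, (f n i (T i x) - f n i x)
          = ∑ i, ∑ n ∈ Finset.range M, ρ n x * (f n i (T i x) - f n i x) := by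
        rw [Finset.sum_comm]
        refine Finset.sum_congr rfl (fun n _ => ?_)
        rw [Finset.mul_sum]
      rw [e2, ← Finset.sum_add_distrib]
      refine Finset.sum_congr rfl (fun i _ => ?_)
      rw [← Finset.sum_sub_distrib, ← Finset.sum_add_distrib]
      refine Finset.sum_congr rfl (fun n _ => ?_)
      ring
    rw [e1]
    have b1 : ∀ i : Fin k, ∑ n ∈ Finset.range M, (ρ n (T i x) - ρ n x) * f n i (T i x)
        ≤ C * (2 * ∑ n ∈ Finset.range M, 1 / (N n : ℝ)) := by
      intro i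
      have hrd := rho_diff (fun n => w n (T i x)) (fun n => w n x) (fun n => 1 / (N n : ℝ))
        (hw0 _) (hw1 _) (hw0 _) (hw1 _) (fun n => gw_lip T (P n) (N n) (hN1 n) i x) M
      calc ∑ n ∈ Finset.range M, (ρ n (T i x) - ρ n x) * f n i (T i x)
          ≤ ∑ n ∈ Finset.range M, C * |ρ n (T i x) - ρ n x| := by
            refine Finset.sum_le_sum (fun n _ => ?_)
            refine (le_abs_self _).trans ?_
            rw [abs_mul, mul_comm]
            exact mul_le_mul_of_nonneg_right (hfC n i _) (abs_nonneg _)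
        _ = C * ∑ n ∈ Finset.range M, |ρ n (T i x) - ρ n x| := by rw [Finset.mul_sum]
        _ ≤ C * (2 * ∑ n ∈ Finset.range M, 1 / (N n : ℝ)) :=
            mul_le_mul_of_nonneg_left hrd hC.le
    have b2 : ∑ n ∈ Finset.range M, ρ n x * ∑ i, (f n i (T i x) - f n i x)
        ≤ - ∑ n ∈ Finset.range M, ρ n x := by
      rw [← Finset.sum_neg_distrib]
      refine Finset.sum_le_sum (fun n _ => ?_)
      by_cases hz : ρ n x = 0
      · rw [hz]; simp
      · have hwn : gw T (P n) (N n) x ≠ 0 := by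
          intro h0
          apply hz
          show w n x * _ = 0
          rw [show w n x = 0 from h0, zero_mul]
        have hx : x ∈ gT T (P n) (N n) := gw_ne _ _ _ _ hwn
        have := mul_le_mul_of_nonneg_left (hfK n x hx) (hρ0 n x)
        linarith
    have b3 : ∑ i : Fin k, (∑ n ∈ Finset.range M, (ρ n (T i x) - ρ n x) * f n i (T i x))
        ≤ ε := by
      calc _ ≤ ∑ _i : Fin k, C * (2 * ∑ n ∈ Finset.range M, 1 / (N n : ℝ)) :=
            Finset.sum_le_sum (fun i _ => b1 i)
        _ = 2 * k * C * ∑ n ∈ Finset.range M, 1 / (N n : ℝ) := by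
            rw [Finset.sum_const, Finset.card_univ, Fintype.card_fin, nsmul_eq_mul]; ring
        _ ≤ ε := hNs M
    linarith
  refine le_of_tendsto hlim ?_
  by_cases hxU : x ∈ U
  · obtain ⟨n0, hn0⟩ := mem_iUnion.1 (hPU hxU)
    rw [indicator_of_mem hxU]
    filter_upwards [Filter.eventually_gt_atTop n0] with M hM
    refine (hbound M).trans ?_
    rw [hρs]
    have hw : w n0 x = 1 := gw_eq_one T (P n0) (N n0) (hN1 n0) x hn0
    have : ∏ j ∈ Finset.range M, (1 - w j x) = 0 := by
      rw [Finset.prod_eq_zero_iff]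
      exact ⟨n0, Finset.mem_range.2 hM, by rw [hw, sub_self]⟩
    rw [this, sub_zero]
  · rw [indicator_of_notMem hxU, sub_zero]
    refine Filter.Eventually.of_forall (fun M => ?_)
    refine (hbound M).trans ?_
    have : 0 ≤ ∑ n ∈ Finset.range M, ρ n x := Finset.sum_nonneg (fun n _ => hρ0 n x)
    linarith



theorem exhaust_abs [PseudoMetricSpace X] [MeasurableSpace X] [BorelSpace X] (μ : Measure X) [IsFiniteMeasure μ] (U : Set X) (hU : IsOpen U)
    (η : ℕ → ℝ) (hη : ∀ k, 0 < η k) (h0 : μ U ≤ ENNReal.ofReal (η 0)) :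
    ∃ P : ℕ → Set X, (∀ k, IsClosed (P k)) ∧ (∀ k, μ (P k) ≤ ENNReal.ofReal (η k)) ∧
      U ⊆ ⋃ k, P k := by
  classical
  rcases Set.eq_empty_or_nonempty Uᶜ with hne | hne
  · refine ⟨fun k => if k = 0 then Set.univ else ∅, ?_, ?_, ?_⟩
    · intro k
      by_cases hk : k = 0
      · simp [hk]
      · simp [hk]
    · intro k
      by_cases hk : k = 0
      · have hU' : U = Set.univ := Set.compl_empty_iff.1 hne
        rw [hU'] at h0
        simp only [hk, if_true]
        exact h0
      · simp [hk]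
    · intro x _
      rw [Set.mem_iUnion]
      exact ⟨0, by simp⟩
  have hcl : IsClosed Uᶜ := hU.isClosed_compl
  have hD : ∀ x, x ∈ U ↔ 0 < Metric.infDist x Uᶜ := by
    intro x
    rw [← hcl.notMem_iff_infDist_pos hne, Set.notMem_compl_iff]
  have hDc : Continuous (fun x : X => Metric.infDist x Uᶜ) := Metric.continuous_infDist_pt _
  -- small shells
  have hsmall : ∀ k, ∃ ρ : ℝ, 0 < ρ ∧
      μ {x | 0 < Metric.infDist x Uᶜ ∧ Metric.infDist x Uᶜ ≤ ρ} ≤ ENNReal.ofReal (η k) := by
    intro k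
    have hmeas : ∀ r : ℝ, MeasurableSet {x : X | 0 < Metric.infDist x Uᶜ ∧
        Metric.infDist x Uᶜ ≤ r} := by
      intro r
      exact (measurableSet_lt measurable_const hDc.measurable).inter
        (measurableSet_le hDc.measurable measurable_const)
    have hlim := tendsto_measure_iInter_atTop (μ := μ)
      (s := fun n : ℕ => {x : X | 0 < Metric.infDist x Uᶜ ∧
        Metric.infDist x Uᶜ ≤ 1 / ((n : ℝ) + 1)})
      (fun n => (hmeas _).nullMeasurableSet)
      (by
        intro m n hmn x hx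
        refine ⟨hx.1, hx.2.trans ?_⟩
        have : (m : ℝ) ≤ n := by exact_mod_cast hmn
        exact one_div_le_one_div_of_le (by positivity) (by linarith))
      ⟨0, measure_ne_top _ _⟩
    have hempty : (⋂ n : ℕ, {x : X | 0 < Metric.infDist x Uᶜ ∧
        Metric.infDist x Uᶜ ≤ 1 / ((n : ℝ) + 1)}) = ∅ := by
      rw [Set.eq_empty_iff_forall_notMem]
      intro x hx
      rw [Set.mem_iInter] at hx
      obtain ⟨n, hn⟩ := exists_nat_one_div_lt (hx 0).1
      exact absurd (hx n).2 (not_le.2 hn)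
    rw [hempty, measure_empty] at hlim
    have hpos : (0 : ENNReal) < ENNReal.ofReal (η k) := ENNReal.ofReal_pos.2 (hη k)
    obtain ⟨n, hn⟩ := (hlim.eventually (gt_mem_nhds hpos)).exists
    exact ⟨1 / ((n : ℝ) + 1), by positivity, hn.le⟩
  choose ρ hρ0 hρ using hsmall
  obtain ⟨r, hr0, hrs⟩ : ∃ r : ℕ → ℝ, r 0 = min (ρ 0) 1 ∧
      ∀ k, r (k + 1) = min (r k) (min (ρ (k + 1)) (1 / ((k : ℝ) + 2))) :=
    ⟨fun k => Nat.rec (min (ρ 0) 1) (fun k v => min v (min (ρ (k + 1)) (1 / ((k : ℝ) + 2)))) k,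
      rfl, fun k => rfl⟩
  have hrpos : ∀ k, 0 < r k := by
    intro k
    induction k with
    | zero => rw [hr0]; exact lt_min (hρ0 0) one_pos
    | succ k ih => rw [hrs]; exact lt_min ih (lt_min (hρ0 _) (by positivity))
  have hrρ : ∀ k, r k ≤ ρ k := by
    intro k
    cases k with
    | zero => rw [hr0]; exact min_le_left _ _
    | succ k => rw [hrs]; exact (min_le_right _ _).trans (min_le_left _ _)
  have hr1 : ∀ k : ℕ, r (k + 1) ≤ 1 / ((k : ℝ) + 2) := by
    intro k
    rw [hrs]
    exact (min_le_right _ _).trans (min_le_right _ _)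
  refine ⟨fun k => if k = 0 then {x | r 1 ≤ Metric.infDist x Uᶜ} else
    {x | r (k + 1) ≤ Metric.infDist x Uᶜ ∧ Metric.infDist x Uᶜ ≤ r k}, ?_, ?_, ?_⟩
  · intro k
    by_cases hk : k = 0
    · simp only [hk, if_true]
      exact isClosed_le continuous_const hDc
    · simp only [hk, if_false]
      exact (isClosed_le continuous_const hDc).inter (isClosed_le hDc continuous_const)
  · intro k
    by_cases hk : k = 0
    · simp only [hk, if_true]
      refine le_trans (measure_mono ?_) h0
      intro x hx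
      exact (hD x).2 (lt_of_lt_of_le (hrpos 1) hx)
    · simp only [hk, if_false]
      refine le_trans (measure_mono ?_) (hρ k)
      intro x hx
      exact ⟨lt_of_lt_of_le (hrpos _) hx.1, hx.2.trans (hrρ k)⟩
  · intro x hx
    have hx0 := (hD x).1 hx
    have hex : ∃ k, r (k + 1) ≤ Metric.infDist x Uᶜ := by
      obtain ⟨n, hn⟩ := exists_nat_one_div_lt hx0
      refine ⟨n, (hr1 n).trans (le_trans ?_ hn.le)⟩
      exact one_div_le_one_div_of_le (by positivity) (by linarith)
    rw [Set.mem_iUnion]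
    refine ⟨Nat.find hex, ?_⟩
    have h1 := Nat.find_spec hex
    by_cases hk : Nat.find hex = 0
    · simp only [hk, if_true]
      rw [hk] at h1
      exact h1
    · simp only [hk, if_false]
      refine ⟨h1, ?_⟩
      obtain ⟨j, hj⟩ := Nat.exists_eq_succ_of_ne_zero hk
      have h2 := Nat.find_min hex (m := j) (by omega)
      rw [hj]
      exact (not_le.1 h2).le


end Pool.Agent.H970Z.Rz
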