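import Mathlib

/-!
Finitely additive isometry-invariant measures on the bounded Borel subsets of Euclidean space.
-/

set_option autoImplicit false

namespace Pool.Agent.H970Z.Rz

/-- On the bounded Borel subsets of `ℝ^n` the `[0, ∞]`-valued set function `μ` is a finitely
additive measure, invariant under all isometries of `ℝ^n`, that gives the closed unit cube mass `1`.
(Its values on other sets play no role.) -/
structure IsInvariantFA {n : ℕ} (μ : Set (EuclideanSpace ℝ (Fin n)) → ENNReal) : Prop where
  empty : μ ∅ = 0
  add : ∀ A B : Set (EuclideanSpace ℝ (Fin n)), MeasurableSet A → Bornology.IsBounded A →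
    MeasurableSet B → Bornology.IsBounded B → Disjoint A B → μ (A ∪ B) = μ A + μ B
  invariant : ∀ (φ : EuclideanSpace ℝ (Fin n) ≃ᵢ EuclideanSpace ℝ (Fin n))
    (A : Set (EuclideanSpace ℝ (Fin n))), MeasurableSet A → Bornology.IsBounded A →
    μ (φ '' A) = μ A
  cube : μ {x | ∀ i, x i ∈ Set.Icc (0 : ℝ) 1} = 1

end Pool.Agent.H970Z.Rz
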