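import Pool.Agent.H970Z.Rz.Geo
import Pool.Agent.Helper557.Rz.Final0
import Pool.Agent.Helper557.Rz.M_gap3

/-!
Draining small subsets of Euclidean space along concentric spheres.
-/

set_option autoImplicit false

open MeasureTheory Set

namespace Pool.Agent.H970Z.Rz

open Pool.Agent.Helper557.Rz

variable {d k : ℕ}

/-- The rotations as permutations of Euclidean space. -/
noncomputable def TE (g : Fin k → Iso d) (i : Fin k) : E d ≃ E d := (g i).toEquiv

/-- The rotations as permutations of the sphere. -/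
noncomputable def TS (g : Fin k → Iso d) (i : Fin k) : S d ≃ S d :=
  ⟨rot (g i), rot (g i)⁻¹, rot_inv_rot (g i), rot_rot_inv (g i)⟩

theorem TE_cont (g : Fin k → Iso d) (i : Fin k) : Continuous (TE g i) := (g i).continuous

theorem TE_symm_cont (g : Fin k → Iso d) (i : Fin k) : Continuous (TE g i).symm :=
  (g i).symm.continuous

theorem slice_gT (hd : 1 ≤ d) (g : Fin k → Iso d) (P : Set (E d)) (hP : MeasurableSet P)
    (N : ℕ) (r : ℝ) : sg d (slice (gT (TE g) P N) r) ≤
      ((1 + 2 * k : ℕ) : ENNReal) ^ N * sg d (slice P r) := by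
  have h := gT_preimage (TE g) (TS g) (fun θ : S d => r • (θ : E d))
    (fun i θ => ((g i).map_smul r (θ : E d)).symm) P N
  have e : slice (gT (TE g) P N) r = gT (TS g) (slice P r) N := h
  rw [e]
  exact gT_meas (sg d) (TS g) (fun i => rot_mp d hd (g i)) (fun i => rot_mp d hd (g i)⁻¹) _
    ((by fun_prop : Measurable (fun θ : S d => r • (θ : E d))) hP) N

theorem borel_flow (hd : 1 ≤ d) (g : Fin k → Iso d) (C : ℝ) (hC : 0 < C) (hf : Flow d k g C)
    (K : Set (E d)) (hK : IsClosed K) :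
    ∃ F : Fin k → E d → ℝ, (∀ i, Measurable (F i)) ∧ (∀ i x, |F i x| ≤ 2 * C) ∧
      ∀ x ∈ K, x ≠ 0 → sg d (slice K ‖x‖) ≤ ENNReal.ofReal (1 / 8) →
        ∑ i, (F i (TE g i x) - F i x) ≤ -1 := by
  classical
  have hcl : ∀ r : ℝ, IsClosed (slice K r) := fun r =>
    hK.preimage (by fun_prop : Continuous (fun θ : S d => r • (θ : E d)))
  have h1 : ∀ r : ℝ, ∃ f : Fin k → C(S d, ℝ), (∀ i x, |f i x| ≤ C) ∧
      (sg d (slice K r) ≤ ENNReal.ofReal (1 / 8) →
        ∀ x ∈ slice K r, ∑ i, (f i (rot (g i) x) - f i x) ≤ -1) := by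
    intro r
    by_cases hr : sg d (slice K r) ≤ ENNReal.ofReal (1 / 8)
    · obtain ⟨f, h1, h2⟩ := hf _ (hcl r) hr
      exact ⟨f, h1, fun _ => h2⟩
    · exact ⟨fun _ => 0, fun i x => by simpa using hC.le, fun h => absurd h hr⟩
  choose f hfC hfK using h1
  set W : ℝ → Set ℝ := fun r => {s | ∀ θ : S d, s • (θ : E d) ∈ K →
    ∑ i, (f r i (rot (g i) θ) - f r i θ) < -1 / 2} with hW
  have hWo : ∀ r, IsOpen (W r) := by
    intro r
    have hc : IsClosed {q : ℝ × S d | q.1 • (q.2 : E d) ∈ K ∧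
        -1 / 2 ≤ ∑ i, (f r i (rot (g i) q.2) - f r i q.2)} := by
      have hc2 : Continuous (fun q : ℝ × S d => ∑ i, (f r i (rot (g i) q.2) - f r i q.2)) := by
        refine continuous_finsetSum _ (fun i _ => ?_)
        exact ((f r i).continuous.comp ((rot_continuous (g i)).comp continuous_snd)).sub
          ((f r i).continuous.comp continuous_snd)
      have hc3 : IsClosed {q : ℝ × S d | -1 / 2 ≤ ∑ i, (f r i (rot (g i) q.2) - f r i q.2)} :=
        isClosed_le continuous_const hc2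
      exact IsClosed.inter (hK.preimage (by fun_prop :
        Continuous (fun q : ℝ × S d => q.1 • (q.2 : E d)))) hc3
    have := (isClosedMap_fst_of_compactSpace _ hc).isOpen_compl
    convert this using 1
    ext s
    simp only [hW, mem_ofPred_eq, mem_compl_iff, mem_image, Prod.exists, exists_and_right,
      exists_eq_right, not_exists, not_and, not_le]
  obtain ⟨t, -, htc, htW⟩ := TopologicalSpace.countable_cover_nhdsWithin
    (s := {r : ℝ | sg d (slice K r) ≤ ENNReal.ofReal (1 / 8)}) (f := W) (fun r hr =>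
      mem_nhdsWithin_of_mem_nhds ((hWo r).mem_nhds (fun θ hθ =>
        lt_of_le_of_lt (hfK r hr θ hθ) (by norm_num))))
  obtain ⟨u, hu⟩ := (htc.insert 0).exists_eq_range (insert_nonempty _ _)
  have hex : ∀ s : ℝ, ∃ n, s ∈ W (u n) ∨ ∀ m, s ∉ W (u m) := by
    intro s
    by_cases h : ∃ m, s ∈ W (u m)
    · obtain ⟨m, hm⟩ := h
      exact ⟨m, Or.inl hm⟩
    · exact ⟨0, Or.inr (not_exists.1 h)⟩
  have hJ : Measurable (fun s : ℝ => Nat.find (hex s)) := by
    refine measurable_find hex (fun n => ?_)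
    refine (hWo _).measurableSet.union ?_
    have : {s : ℝ | ∀ m, s ∉ W (u m)} = ⋂ m, (W (u m))ᶜ := by ext s; simp
    change MeasurableSet {s : ℝ | ∀ m, s ∉ W (u m)}
    rw [this]
    exact MeasurableSet.iInter (fun m => (hWo _).measurableSet.compl)
  have := nontriv_E d hd
  obtain ⟨θ₀, hθ₀⟩ := exists_norm_eq (E d) zero_le_one
  have hmem : ∀ x : E d, (if x = 0 then θ₀ else ‖x‖⁻¹ • x) ∈ Metric.sphere (0 : E d) 1 := by
    intro x
    split_ifs with h
    · simpa using hθ₀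
    · rw [mem_sphere_zero_iff_norm, norm_smul, norm_inv, norm_norm,
        inv_mul_cancel₀ (norm_ne_zero_iff.2 h)]
  set dir : E d → S d := fun x => ⟨if x = 0 then θ₀ else ‖x‖⁻¹ • x, hmem x⟩ with hdir
  have hdm : Measurable dir :=
    Measurable.subtype_mk (Measurable.ite (measurableSet_singleton 0) measurable_const
      (by fun_prop))
  refine ⟨fun i x => 2 * f (u (Nat.find (hex ‖x‖))) i (dir x), fun i => ?_, fun i x => ?_,
    fun x hx hx0 hs => ?_⟩
  · refine Measurable.const_mul ?_ _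
    have hm : Measurable (fun p : E d × ℕ => f (u p.2) i (dir p.1)) :=
      measurable_from_prod_countable_left (fun n => (f (u n) i).continuous.measurable.comp hdm)
    exact hm.comp (measurable_id.prodMk (hJ.comp measurable_norm))
  · rw [abs_mul, abs_two]
    have := hfC (u (Nat.find (hex ‖x‖))) i (dir x)
    linarith
  · have hn : ∀ i, ‖TE g i x‖ = ‖x‖ := fun i => (g i).norm_map x
    have hr : ∀ i, dir (TE g i x) = rot (g i) (dir x) := by
      intro i
      have h0 : TE g i x ≠ 0 := by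
        rw [← norm_ne_zero_iff, hn, norm_ne_zero_iff]; exact hx0
      apply Subtype.ext
      simp only [hdir, if_neg h0, if_neg hx0, rot_coe, hn, map_smul]
      rfl
    have hW1 : ‖x‖ ∈ W (u (Nat.find (hex ‖x‖))) := by
      rcases Nat.find_spec (hex ‖x‖) with h | h
      · exact h
      · obtain ⟨r, hr1, hr2⟩ := mem_iUnion₂.1 (htW hs)
        have : r ∈ range u := hu ▸ mem_insert_of_mem _ hr1
        obtain ⟨m, rfl⟩ := this
        exact absurd hr2 (h m)
    have h2 := hW1 (dir x) (by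
      simp only [hdir, if_neg hx0, smul_smul, mul_inv_cancel₀ (norm_ne_zero_iff.2 hx0), one_smul]
      exact hx)
    simp only [hn, hr, ← mul_sub, ← Finset.mul_sum]
    linarith

theorem drain (hd : 1 ≤ d) (g : Fin k → Iso d) (C : ℝ) (hC : 0 < C) (hf : Flow d k g C)
    (m : Set (E d) → ℝ) (hm : FA (TE g) m) (ε : ℝ) (N : ℕ → ℕ) (hN1 : ∀ n, 1 ≤ N n)
    (hNs : ∀ M, 2 * k * (2 * C) * ∑ n ∈ Finset.range M, 1 / (N n : ℝ) ≤ ε)
    (P : ℕ → Set (E d)) (hP : ∀ n, IsClosed (P n)) (U : Set (E d)) (hU : MeasurableSet U)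
    (hPU : U ⊆ ⋃ n, P n)
    (hZ : ∀ x ∈ U, x ≠ 0 ∧ ∀ n, sg d (slice (gT (TE g) (P n) (N n)) ‖x‖) ≤
      ENNReal.ofReal (1 / 8)) : m U ≤ ε * m univ := by
  have hK : ∀ n, IsClosed (gT (TE g) (P n) (N n)) := fun n =>
    gT_closed _ (TE_cont g) (TE_symm_cont g) _ (hP n) _
  choose F hF1 hF2 hF3 using fun n => borel_flow hd g C hC hf _ (hK n)
  set Z : Set (E d) := {x | x ≠ 0 ∧ ∀ n, sg d (slice (gT (TE g) (P n) (N n)) ‖x‖) ≤
      ENNReal.ofReal (1 / 8)} with hZdef
  have hZm : MeasurableSet Z := by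
    refine (measurableSet_singleton 0).compl.inter ?_
    change MeasurableSet {x : E d | ∀ n, sg d (slice (gT (TE g) (P n) (N n)) ‖x‖) ≤
      ENNReal.ofReal (1 / 8)}
    rw [ofPred_forall]
    exact MeasurableSet.iInter (fun n => measurableSet_le
      ((measurable_slice hd (hK n).measurableSet).comp measurable_norm) measurable_const)
  have hZi : ∀ i x, TE g i x ∈ Z ↔ x ∈ Z := by
    intro i x
    have hn : ‖TE g i x‖ = ‖x‖ := (g i).norm_map x
    have h0 : TE g i x ≠ 0 ↔ x ≠ 0 := by rw [← norm_ne_zero_iff, hn, norm_ne_zero_iff]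
    simp only [hZdef, mem_ofPred_eq, h0, hn]
  refine glue_abs (TE g) (fun i => (TE_cont g i).measurable)
    (fun i => (TE_symm_cont g i).measurable) (2 * C) (by positivity) m hm ε N hN1 hNs
    (fun n => P n ∩ Z) (fun n => (hP n).measurableSet.inter hZm) F hF1 hF2 (fun n x hx => ?_)
    U hU (fun x hx => ?_)
  · obtain ⟨h1, h2⟩ := gT_inter (TE g) Z hZi (P n) (N n) hx
    exact hF3 n x h1 h2.1 (h2.2 n)
  · obtain ⟨n, hn⟩ := mem_iUnion.1 (hPU hx)
    exact mem_iUnion.2 ⟨n, hn, hZ x hx⟩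

/-- A finitely additive isometry-invariant set function on bounded Borel sets. -/
structure BFA (M : Set (E d) → ℝ) : Prop where
  nonneg : ∀ A, MeasurableSet A → Bornology.IsBounded A → 0 ≤ M A
  add : ∀ A B, MeasurableSet A → Bornology.IsBounded A → MeasurableSet B →
    Bornology.IsBounded B → Disjoint A B → M (A ∪ B) = M A + M B
  inv : ∀ (φ : E d ≃ᵢ E d) (A : Set (E d)), MeasurableSet A → Bornology.IsBounded A →
    M (φ ⁻¹' A) = M A

theorem BFA.fa {M : Set (E d) → ℝ} (h : BFA M) (g : Fin k → Iso d) :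
    FA (TE g) (fun A => M (A ∩ Metric.closedBall 0 3)) := by
  have hb : ∀ A : Set (E d), Bornology.IsBounded (A ∩ Metric.closedBall 0 3) := fun A =>
    Metric.isBounded_closedBall.subset inter_subset_right
  have hm : MeasurableSet (Metric.closedBall (0 : E d) 3) := measurableSet_closedBall
  refine ⟨fun A hA => h.nonneg _ (hA.inter hm) (hb A), fun A B hA hB hAB => ?_, fun i A hA => ?_⟩
  · rw [union_inter_distrib_right]
    exact h.add _ _ (hA.inter hm) (hb A) (hB.inter hm) (hb B)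
      (hAB.mono inter_subset_left inter_subset_left)
  · rw [← h.inv (g i).toIsometryEquiv _ (hA.inter hm) (hb A)]
    congr 1
    ext x
    simp only [mem_inter_iff, mem_preimage, mem_closedBall_zero_iff,
      LinearIsometryEquiv.coe_toIsometryEquiv, LinearIsometryEquiv.norm_map]
    rfl

theorem small_ball (n : ℕ) (hn : 1 ≤ n) {M : Set (E (n + 2)) → ℝ} (hM : BFA M) {ε : ℝ}
    (hε : 0 < ε) : ∃ η : ENNReal, 0 < η ∧ ∀ B : Set (E (n + 2)), MeasurableSet B →
      B ⊆ Metric.ball ((1 / 2 : ℝ) • pp n) 1 → volume B < η → M B ≤ ε := by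
  have hd : 1 ≤ n + 2 := by omega
  obtain ⟨k, g, κ, hg⟩ := gap_of_gap3 gap3 (n + 2) (by omega)
  obtain ⟨ε₀, h0, hmov⟩ := mov_of_gap (n + 2) (by omega) k g κ hg
  have hfl := flow_of_mov (n + 2) hd k g ε₀ h0 hmov
  set C : ℝ := 1 / ε₀ with hCdef
  have hC : 0 < C := by positivity
  set M₀ := M (univ ∩ Metric.closedBall 0 3) with hM₀
  have hM0 : 0 ≤ M₀ := (hM.fa g).nonneg _ MeasurableSet.univ
  set ε' : ℝ := ε / (2 * (M₀ + 1)) with hε'
  have hε'0 : 0 < ε' := by positivity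
  obtain ⟨N, hN1, hNs⟩ := exists_N8881 (2 * k * (2 * C)) ε' (by positivity) hε'0
  set q : ENNReal := ((1 + 2 * k : ℕ) : ENNReal) with hq
  have hqt : ∀ j, q ^ N j ≠ ⊤ := fun j => ENNReal.pow_ne_top (ENNReal.natCast_ne_top _)
  have h8 : ENNReal.ofReal (1 / 8) ≠ 0 := by simp
  choose e he0 he using fun j => ENNReal.exists_nnreal_pos_mul_lt (hqt j) h8
  choose δ hδ0 hδ using fun j => shell_slice n (ε := e j) (by exact_mod_cast (he0 j).ne')
  choose η₂ hη₂0 hη₂ using fun j => ENNReal.lt_iff_exists_nnreal_btwn.1 (hδ0 j)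
  obtain ⟨c, hc, hbad⟩ := bad_radii (n + 2) hd
  obtain ⟨w, hw0, hw⟩ := ENNReal.exists_pos_sum_of_countable (hη₂0 0).ne' ℕ
  choose η₁ hη₁0 hη₁ using fun j => ENNReal.exists_nnreal_pos_mul_lt
    (ENNReal.mul_ne_top hc (hqt j)) (show (w j : ENNReal) ≠ 0 by exact_mod_cast (hw0 j).ne')
  refine ⟨η₁ 0, by exact_mod_cast hη₁0 0, fun B hB hBD hBv => ?_⟩
  have hnorm : ∀ x ∈ B, 1 ≤ ‖x‖ ∧ ‖x‖ ≤ 3 ∧ 1 ≤ ‖x - pp n‖ ∧ ‖x - pp n‖ ≤ 3 := by
    intro x hx
    have h1 : ‖x - (1 / 2 : ℝ) • pp n‖ < 1 := mem_ball_iff_norm.1 (hBD hx)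
    have h2 : ‖(1 / 2 : ℝ) • pp n‖ = 2 := by rw [norm_smul, norm_pp]; norm_num
    have e1 : x - pp n = (x - (1 / 2 : ℝ) • pp n) - (1 / 2 : ℝ) • pp n := by module
    have a1 := abs_le.1 (abs_norm_sub_norm_le x ((1 / 2 : ℝ) • pp n))
    have a2 := norm_sub_le (x - (1 / 2 : ℝ) • pp n) ((1 / 2 : ℝ) • pp n)
    have a3 := norm_sub_norm_le ((1 / 2 : ℝ) • pp n) (x - (1 / 2 : ℝ) • pp n)
    rw [norm_sub_rev ((1 / 2 : ℝ) • pp n)] at a3
    rw [e1]
    refine ⟨by linarith [a1.1], by linarith [a1.2], by linarith, by linarith⟩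
  obtain ⟨U, hBU, hUo, hUv⟩ := B.exists_isOpen_lt_of_lt _ hBv
  have : IsFiniteMeasure ((volume : Measure (E (n + 2))).restrict (Metric.closedBall 0 3)) :=
    isFiniteMeasure_restrict.2 measure_closedBall_lt_top.ne
  obtain ⟨P, hPc, hPm, hPU⟩ := exhaust_abs
    ((volume : Measure (E (n + 2))).restrict (Metric.closedBall 0 3)) U hUo (fun j => η₁ j)
    (fun j => hη₁0 j) (by
      rw [ENNReal.ofReal_coe_nnreal]
      exact (Measure.restrict_apply_le _ _).trans hUv.le)
  set P₁ : ℕ → Set (E (n + 2)) := fun j => P j ∩ Metric.closedBall 0 3 with hP₁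
  have hP₁c : ∀ j, IsClosed (P₁ j) := fun j => (hPc j).inter Metric.isClosed_closedBall
  set Bad : ℕ → Set ℝ := fun j => {r : ℝ | 1 ≤ r ∧ ENNReal.ofReal (1 / 8) <
    sg (n + 2) (slice (gT (TE g) (P₁ j) (N j)) r)} with hBad
  have hBadv : volume (⋃ j, Bad j) < η₂ 0 := by
    refine lt_of_le_of_lt ((measure_iUnion_le _).trans (ENNReal.tsum_le_tsum (fun j => ?_))) hw
    have h1 := hbad _ (gT_closed _ (TE_cont g) (TE_symm_cont g) _ (hP₁c j) (N j)).measurableSet
    have h2 := gT_meas volume (TE g) (fun i => (g i).measurePreserving)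
      (fun i => (g i).symm.measurePreserving) _ (hP₁c j).measurableSet (N j)
    have h3 := hPm j
    rw [Measure.restrict_apply (hPc j).measurableSet, ENNReal.ofReal_coe_nnreal] at h3
    calc volume (Bad j) ≤ c * (q ^ N j * η₁ j) := by
          refine h1.trans ?_
          gcongr
          refine h2.trans ?_
          gcongr
      _ = η₁ j * (c * q ^ N j) := by ring
      _ ≤ w j := (hη₁ j).le
  obtain ⟨O, hBO, hOo, hOv⟩ := Set.exists_isOpen_lt_of_lt _ _ hBadv
  have : IsFiniteMeasure ((volume : Measure ℝ).restrict (Icc 0 3)) :=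
    isFiniteMeasure_restrict.2 measure_Icc_lt_top.ne
  obtain ⟨Q, hQc, hQm, hQO⟩ := exhaust_abs ((volume : Measure ℝ).restrict (Icc 0 3)) O hOo
    (fun j => η₂ j) (fun j => by exact_mod_cast hη₂0 j) (by
      rw [ENNReal.ofReal_coe_nnreal]
      exact (Measure.restrict_apply_le _ _).trans hOv.le)
  have hOm : MeasurableSet {x : E (n + 2) | ‖x‖ ∈ O} := measurable_norm hOo.measurableSet
  have hBb : Bornology.IsBounded B := Metric.isBounded_ball.subset hBD
  have b1 : M (B \ {x | ‖x‖ ∈ O}) ≤ ε' * M₀ := by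
    have := drain hd g C hC hfl _ (hM.fa g) ε' N hN1 hNs P₁ hP₁c _ (hB.diff hOm)
      (fun x hx => by
        obtain ⟨j, hj⟩ := mem_iUnion.1 (hPU (hBU hx.1))
        exact mem_iUnion.2 ⟨j, hj, mem_closedBall_zero_iff.2 (hnorm x hx.1).2.1⟩)
      (fun x hx => ⟨by
        rw [← norm_ne_zero_iff]; linarith [(hnorm x hx.1).1], fun j => by
        by_contra hcon
        exact hx.2 (hBO (mem_iUnion.2 ⟨j, (hnorm x hx.1).1, not_le.1 hcon⟩))⟩)
    rwa [inter_eq_self_of_subset_left
      (fun x hx => mem_closedBall_zero_iff.2 (hnorm x hx.1).2.1)] at this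
  have b2 : M (B ∩ {x | ‖x‖ ∈ O}) ≤ ε' * M₀ := by
    rw [← hM.inv (IsometryEquiv.addRight (pp n)) _ (hB.inter hOm)
      (hBb.subset inter_subset_left)]
    have hcont : Continuous (fun y : E (n + 2) => ‖y + pp n‖) := by fun_prop
    have hy : ∀ y, y + pp n ∈ B → 1 ≤ ‖y‖ ∧ ‖y‖ ≤ 3 := fun y h => by
      simpa using (hnorm _ h).2.2
    have := drain hd g C hC hfl _ (hM.fa g) ε' N hN1 hNs
      (fun j => {y | ‖y + pp n‖ ∈ Q j ∩ Icc 0 3 ∧ ‖y + pp n‖ ≤ 3})
      (fun j => (((hQc j).inter isClosed_Icc).preimage hcont).inter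
        (isClosed_le hcont continuous_const))
      (IsometryEquiv.addRight (pp n) ⁻¹' (B ∩ {x | ‖x‖ ∈ O}))
      ((IsometryEquiv.addRight (pp n)).continuous.measurable (hB.inter hOm))
      (fun y hy' => by
        obtain ⟨j, hj⟩ := mem_iUnion.1 (hQO hy'.2)
        have h3 := (hnorm _ hy'.1).2.1
        exact mem_iUnion.2 ⟨j, ⟨hj, norm_nonneg _, h3⟩, h3⟩)
      (fun y hy' => ⟨by
        rw [← norm_ne_zero_iff]; linarith [(hy y hy'.1).1], fun j => by
        refine (slice_gT hd g _ (((((hQc j).inter isClosed_Icc).preimage hcont).inter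
          (isClosed_le hcont continuous_const)).measurableSet) (N j) _).trans ?_
        have h3 := hQm j
        rw [Measure.restrict_apply (hQc j).measurableSet, ENNReal.ofReal_coe_nnreal] at h3
        have h4 := hδ j (Q j ∩ Icc 0 3) (lt_of_le_of_lt h3 (hη₂ j)) ‖y‖ (hy y hy'.1).1
        refine le_trans ?_ (he j).le
        rw [mul_comm (e j : ENNReal)]
        gcongr
        exact h4.le⟩)
    rwa [inter_eq_self_of_subset_left
      (fun y hy' => mem_closedBall_zero_iff.2 (hy y hy'.1).2)] at this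
  have e1 := hM.add _ _ (hB.diff hOm) (hBb.subset sdiff_subset) (hB.inter hOm)
    (hBb.subset inter_subset_left) disjoint_sdiff_inter
  rw [sdiff_union_inter] at e1
  have e2 : ε' * (2 * (M₀ + 1)) = ε := by rw [hε']; field_simp
  nlinarith

end Pool.Agent.H970Z.Rz
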