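import Pool.Agent.H970Z.Rz.Defs
import Pool.Agent.H970Z.Rz.Drain

set_option autoImplicit false

open MeasureTheory Set Bornology Filter Topology

namespace Pool.Agent.H970Z.Rz

open Pool.Agent.Helper557.Rz

variable {d : ℕ} {μ : Set (E d) → ENNReal}

theorem cube_meas : MeasurableSet {x : E d | ∀ i, x i ∈ Set.Icc (0 : ℝ) 1} := by
  rw [ofPred_forall]
  exact MeasurableSet.iInter (fun i =>
    (by fun_prop : Measurable (fun x : E d => x i)) measurableSet_Icc)

theorem cube_vol : volume {x : E d | ∀ i, x i ∈ Set.Icc (0 : ℝ) 1} = 1 := by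
  rw [← (PiLp.volume_preserving_toLp (Fin d)).measure_preimage cube_meas.nullMeasurableSet]
  have : (WithLp.toLp 2 : (Fin d → ℝ) → E d) ⁻¹' {x : E d | ∀ i, x i ∈ Set.Icc (0 : ℝ) 1} =
      Set.pi univ (fun _ => Set.Icc (0 : ℝ) 1) := by
    ext x; simp [Pi.le_def, forall_and]
  rw [this, volume_pi_pi]
  simp

theorem cube_bdd : IsBounded {x : E d | ∀ i, x i ∈ Set.Icc (0 : ℝ) 1} := by
  refine (Metric.isBounded_closedBall (x := (0 : E d)) (r := √d)).subset (fun x hx => ?_)
  rw [mem_closedBall_zero_iff, EuclideanSpace.norm_eq]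
  refine Real.sqrt_le_sqrt ?_
  calc ∑ i, ‖x i‖ ^ 2 ≤ ∑ _i : Fin d, (1 : ℝ) := Finset.sum_le_sum (fun i _ => by
        rw [Real.norm_of_nonneg (hx i).1]; nlinarith [(hx i).1, (hx i).2])
    _ = d := by simp

theorem IsInvariantFA.mono (h : IsInvariantFA μ) {A B : Set (E d)} (hA : MeasurableSet A)
    (hB : MeasurableSet B) (hb : IsBounded B) (hAB : A ⊆ B) : μ A ≤ μ B := by
  have := h.add A (B \ A) hA (hb.subset hAB) (hB.diff hA) (hb.subset sdiff_subset)
    disjoint_sdiff_right
  rw [union_sdiff_cancel hAB] at this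
  rw [this]
  exact le_self_add

theorem IsInvariantFA.preimage (h : IsInvariantFA μ) (φ : E d ≃ᵢ E d) {A : Set (E d)}
    (hA : MeasurableSet A) (hb : IsBounded A) : μ (φ ⁻¹' A) = μ A := by
  rw [← h.invariant φ.symm A hA hb, IsometryEquiv.image_symm]

theorem IsInvariantFA.cover (h : IsInvariantFA μ) (r : ℝ) (t : Finset (E d)) :
    ∀ B : Set (E d), MeasurableSet B → B ⊆ ⋃ x ∈ t, Metric.ball x r →
      μ B ≤ ∑ x ∈ t, μ (B ∩ Metric.ball x r) := by
  classical
  induction t using Finset.induction_on with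
  | empty =>
    intro B _ hB
    have : B = ∅ := by simpa using hB
    simp [this, h.empty]
  | insert a t ha ih =>
    intro B hB hBt
    have hb : IsBounded B :=
      ((isBounded_biUnion_finset _).2 (fun _ _ => Metric.isBounded_ball)).subset hBt
    have e := h.add (B ∩ Metric.ball a r) (B \ Metric.ball a r) (hB.inter measurableSet_ball)
      (hb.subset inter_subset_left) (hB.diff measurableSet_ball) (hb.subset sdiff_subset)
      disjoint_inf_sdiff
    rw [inter_union_sdiff] at e
    rw [Finset.sum_insert ha, e]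
    gcongr
    refine (ih _ (hB.diff measurableSet_ball) (fun x hx => ?_)).trans
      (Finset.sum_le_sum (fun x _ => ?_))
    · have := hBt hx.1
      rw [Finset.set_biUnion_insert] at this
      exact this.resolve_left hx.2
    · exact h.mono ((hB.diff measurableSet_ball).inter measurableSet_ball)
        (hB.inter measurableSet_ball) (hb.subset inter_subset_left)
        (inter_subset_inter_left _ sdiff_subset)

theorem exists_cover {D : Set (E d)} (hD : IsBounded D) {r : ℝ} (hr : 0 < r) :
    ∃ t : Finset (E d), D ⊆ ⋃ x ∈ t, Metric.ball x r := by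
  obtain ⟨t, -, ht, h⟩ := finite_cover_balls_of_compact hD.isCompact_closure hr
  refine ⟨ht.toFinset, subset_closure.trans ?_⟩
  simpa using h

theorem IsInvariantFA.fin (h : IsInvariantFA μ) {A : Set (E d)} (hA : MeasurableSet A)
    (hb : IsBounded A) : μ A ≠ ⊤ := by
  obtain ⟨t, ht⟩ := exists_cover hb (show (0 : ℝ) < 1 / 2 by norm_num)
  refine ne_top_of_le_ne_top ?_ (h.cover _ t A hA ht)
  refine ENNReal.sum_ne_top.2 (fun x _ => ne_top_of_le_ne_top ENNReal.one_ne_top ?_)
  set c : E d := WithLp.toLp 2 (fun _ => (1 / 2 : ℝ)) with hc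
  rw [← h.preimage (IsometryEquiv.addRight (x - c)) (hA.inter measurableSet_ball)
    (hb.subset inter_subset_left), ← h.cube]
  refine h.mono ((IsometryEquiv.addRight (x - c)).continuous.measurable
    (hA.inter measurableSet_ball)) cube_meas cube_bdd (fun y hy i => ?_)
  have h1 : ‖y + (x - c) - x‖ < 1 / 2 := mem_ball_iff_norm.1 hy.2
  have h2 : y + (x - c) - x = y - c := by abel
  rw [h2] at h1
  have h3 := (PiLp.norm_apply_le (y - c) i).trans_lt h1
  have h4 : (y - c) i = y i - 1 / 2 := by simp [hc]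
  rw [h4, Real.norm_eq_abs, abs_lt] at h3
  exact ⟨by linarith [h3.1], by linarith [h3.2]⟩

theorem IsInvariantFA.bfa (h : IsInvariantFA μ) : BFA (fun A => (μ A).toReal) :=
  ⟨fun _ _ _ => ENNReal.toReal_nonneg, fun A B hA hAb hB hBb hAB => by
    rw [h.add A B hA hAb hB hBb hAB, ENNReal.toReal_add (h.fin hA hAb) (h.fin hB hBb)],
    fun φ A hA hb => by rw [h.preimage φ hA hb]⟩

theorem IsInvariantFA.small {n : ℕ} (hn : 1 ≤ n) {μ : Set (E (n + 2)) → ENNReal}
    (h : IsInvariantFA μ) {D : Set (E (n + 2))} (hD : IsBounded D) {ε : ℝ} (hε : 0 < ε) :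
    ∃ η : ENNReal, 0 < η ∧ ∀ B : Set (E (n + 2)), MeasurableSet B → B ⊆ D → volume B < η →
      μ B ≤ ENNReal.ofReal ε := by
  obtain ⟨t, ht⟩ := exists_cover hD one_pos
  obtain ⟨η, hη, H⟩ := small_ball n hn h.bfa (ε := ε / (t.card + 1)) (by positivity)
  refine ⟨η, hη, fun B hB hBD hBv => (h.cover 1 t B hB (hBD.trans ht)).trans ?_⟩
  have hb : IsBounded B := hD.subset hBD
  have h1 : ∀ x ∈ t, μ (B ∩ Metric.ball x 1) ≤ ENNReal.ofReal (ε / (t.card + 1)) := by
    intro x _
    set v := x - (1 / 2 : ℝ) • pp n with hv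
    have hm := (IsometryEquiv.addRight v).continuous.measurable
      (hB.inter (measurableSet_ball (x := x) (ε := 1)))
    have hsub : IsometryEquiv.addRight v ⁻¹' (B ∩ Metric.ball x 1) ⊆
        Metric.ball ((1 / 2 : ℝ) • pp n) 1 := by
      intro y hy
      have h1 : ‖y + v - x‖ < 1 := mem_ball_iff_norm.1 hy.2
      have h2 : y + v - x = y - (1 / 2 : ℝ) • pp n := by rw [hv]; abel
      rw [h2] at h1
      exact mem_ball_iff_norm.2 h1
    have := H _ hm hsub (by
      have e : volume (IsometryEquiv.addRight v ⁻¹' (B ∩ Metric.ball x 1)) =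
          volume (B ∩ Metric.ball x 1) := measure_preimage_add_right volume v _
      rw [e]
      exact lt_of_le_of_lt (measure_mono inter_subset_left) hBv)
    rw [h.preimage _ (hB.inter measurableSet_ball) (hb.subset inter_subset_left)] at this
    exact (ENNReal.le_ofReal_iff_toReal_le
      (h.fin (hB.inter measurableSet_ball) (hb.subset inter_subset_left)) (by positivity)).2 this
  refine (Finset.sum_le_sum h1).trans ?_
  rw [Finset.sum_const, nsmul_eq_mul, ← ENNReal.ofReal_natCast,
    ← ENNReal.ofReal_mul (Nat.cast_nonneg _)]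
  refine ENNReal.ofReal_le_ofReal ?_
  rw [mul_div_assoc', div_le_iff₀ (by positivity)]
  nlinarith

theorem IsInvariantFA.sigma {n : ℕ} (hn : 1 ≤ n) {μ : Set (E (n + 2)) → ENNReal}
    (h : IsInvariantFA μ) (f : ℕ → Set (E (n + 2))) (hf : ∀ i, MeasurableSet (f i))
    (hdis : Pairwise (Function.onFun Disjoint f)) (hb : IsBounded (⋃ i, f i)) :
    μ (⋃ i, f i) = ∑' i, μ (f i) := by
  set P : ℕ → Set (E (n + 2)) := fun N => ⋃ i ∈ Finset.range N, f i with hP
  have hPm : ∀ N, MeasurableSet (P N) := fun N =>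
    Finset.measurableSet_biUnion _ fun i _ => hf i
  have hUm : MeasurableSet (⋃ i, f i) := MeasurableSet.iUnion hf
  have hPU : ∀ N, P N ⊆ ⋃ i, f i := fun N => iUnion₂_subset fun i _ => subset_iUnion f i
  have hsum : ∀ N, μ (P N) = ∑ i ∈ Finset.range N, μ (f i) := by
    intro N
    induction N with
    | zero => simp [hP, h.empty]
    | succ N ih =>
      have hPs : P (N + 1) = P N ∪ f N := by
        simp only [hP]
        rw [Finset.range_add_one, Finset.set_biUnion_insert, union_comm]
      rw [hPs, h.add _ _ (hPm N) (hb.subset (hPU N)) (hf N) (hb.subset (subset_iUnion f N)), ih,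
        Finset.sum_range_succ]
      simp only [hP]
      rw [Set.disjoint_left]
      intro x hx hxN
      simp only [mem_iUnion, Finset.mem_range] at hx
      obtain ⟨i, hi, hxi⟩ := hx
      exact Set.disjoint_left.1 (hdis hi.ne) hxi hxN
  refine le_antisymm ?_ (ENNReal.tsum_le_of_sum_range_le (fun N => ?_))
  · refine ENNReal.le_of_forall_pos_le_add (fun ε hε _ => ?_)
    obtain ⟨η, hη, H⟩ := h.small hn hb (ε := ε) hε
    set B : ℕ → Set (E (n + 2)) := fun N => (⋃ i, f i) \ P N with hB
    have hBm : ∀ N, MeasurableSet (B N) := fun N => hUm.diff (hPm N)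
    have hanti : Antitone B := by
      intro N M hNM
      refine sdiff_subset_sdiff_right ?_
      exact iUnion₂_subset fun i hi => subset_iUnion₂ (s := fun i (_ : i ∈ Finset.range M) => f i)
        i (Finset.mem_range.2 ((Finset.mem_range.1 hi).trans_le hNM))
    have hinter : ⋂ N, B N = ∅ := by
      rw [Set.eq_empty_iff_forall_notMem]
      intro x hx
      have h0 := mem_iInter.1 hx 0
      obtain ⟨i, hi⟩ := mem_iUnion.1 h0.1
      exact (mem_iInter.1 hx (i + 1)).2
        (mem_iUnion₂.2 ⟨i, Finset.mem_range.2 (Nat.lt_succ_self i), hi⟩)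
    have hlim := tendsto_measure_iInter_atTop (μ := volume) (s := B)
      (fun N => (hBm N).nullMeasurableSet) hanti
      ⟨0, (hb.subset sdiff_subset).measure_lt_top.ne⟩
    rw [hinter, measure_empty] at hlim
    obtain ⟨N, hN⟩ := (hlim.eventually_lt_const hη).exists
    have e := h.add _ _ (hPm N) (hb.subset (hPU N)) (hBm N) (hb.subset sdiff_subset)
      disjoint_sdiff_right
    rw [union_sdiff_cancel (hPU N)] at e
    have h2 := H _ (hBm N) sdiff_subset hN
    rw [ENNReal.ofReal_coe_nnreal] at h2
    rw [e, hsum]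
    gcongr
    exact ENNReal.sum_le_tsum _
  · rw [← hsum]
    exact h.mono (hPm N) hUm hb (hPU N)

theorem unique {n : ℕ} (hn : 1 ≤ n) {μ : Set (E (n + 2)) → ENNReal} (h : IsInvariantFA μ)
    (A : Set (E (n + 2))) (hA : MeasurableSet A) (hb : IsBounded A) : μ A = volume A := by
  set sh : ℕ → Set (E (n + 2)) := fun j => {x | ⌊‖x‖⌋₊ = j} with hsh
  have hshm : ∀ j, MeasurableSet (sh j) := fun j =>
    (Nat.measurable_floor.comp measurable_norm) (measurableSet_singleton j)
  have hshb : ∀ j, IsBounded (sh j) := fun j =>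
    (Metric.isBounded_ball (x := (0 : E (n + 2))) (r := j + 1)).subset (fun x hx => by
      rw [mem_ball_zero_iff, ← show ⌊‖x‖⌋₊ = j from hx]
      exact Nat.lt_floor_add_one _)
  set ν : Measure (E (n + 2)) := Measure.ofMeasurable (fun B _ => ∑' j, μ (B ∩ sh j))
    (by simp [h.empty]) (by
      intro f hf hdis
      rw [ENNReal.tsum_comm]
      refine tsum_congr (fun j => ?_)
      rw [iUnion_inter]
      refine h.sigma hn _ (fun i => (hf i).inter (hshm j))
        (fun i i' hi => (hdis hi).mono inter_subset_left inter_subset_left) ?_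
      exact (hshb j).subset (iUnion_subset (fun i => inter_subset_right))) with hν
  have hνb : ∀ B : Set (E (n + 2)), MeasurableSet B → IsBounded B → ν B = μ B := by
    intro B hB hBb
    have e : ⋃ j, B ∩ sh j = B := by
      rw [← inter_iUnion, inter_eq_self_of_subset_left]
      exact fun x _ => mem_iUnion.2 ⟨_, rfl⟩
    rw [hν, Measure.ofMeasurable_apply B hB,
      ← h.sigma hn (fun j => B ∩ sh j) (fun j => hB.inter (hshm j)) (fun j j' hj => by
        rw [Function.onFun, Set.disjoint_left]
        exact fun x h1 h2 => hj (h1.2.symm.trans h2.2)) (by rwa [e]), e]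
  have hsplit : ∀ (B : Set (E (n + 2))), MeasurableSet B → ∀ v : E (n + 2),
      ν ((fun x => v + x) ⁻¹' B) = ∑' j, μ (B ∩ sh j) := by
    intro B hB v
    have hm : Measurable (fun x : E (n + 2) => v + x) := by fun_prop
    have e : (fun x => v + x) ⁻¹' B = ⋃ j, (fun x => v + x) ⁻¹' (B ∩ sh j) := by
      rw [← preimage_iUnion, ← inter_iUnion, inter_eq_self_of_subset_left]
      exact fun x _ => mem_iUnion.2 ⟨_, rfl⟩
    rw [e, measure_iUnion (fun j j' hj => by
        rw [Function.onFun, Set.disjoint_left]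
        exact fun x h1 h2 => hj (h1.2.symm.trans h2.2)) (fun j => hm (hB.inter (hshm j)))]
    refine tsum_congr (fun j => ?_)
    have hb1 : IsBounded (B ∩ sh j) := (hshb j).subset inter_subset_right
    rw [hνb _ (hm (hB.inter (hshm j)))
      ((IsometryEquiv.addLeft v).isometry.antilipschitz.isBounded_preimage hb1)]
    exact h.preimage (IsometryEquiv.addLeft v) (hB.inter (hshm j)) hb1
  have hinv : ν.IsAddLeftInvariant := by
    refine (forall_measure_preimage_add_iff ν).1 (fun v B hB => ?_)
    rw [hsplit B hB v, hν, Measure.ofMeasurable_apply B hB]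
  have hfin : IsFiniteMeasureOnCompacts ν := ⟨fun K hK => by
    rw [hνb K hK.measurableSet hK.isBounded]
    exact (h.fin hK.measurableSet hK.isBounded).lt_top⟩
  have e := Measure.isAddLeftInvariant_eq_smul ν volume
  have e1 := hνb _ cube_meas cube_bdd
  rw [h.cube, e, Measure.smul_apply, cube_vol] at e1
  have e2 : Measure.addHaarScalarFactor ν volume = 1 := by simpa using e1
  rw [← hνb A hA hb, e, e2, one_smul]

theorem main (n : ℕ) (hn : 3 ≤ n) (μ : Set (E n) → ENNReal) :
    IsInvariantFA μ ↔ ∀ A : Set (E n), MeasurableSet A → IsBounded A → μ A = volume A := by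
  obtain ⟨m, rfl⟩ : ∃ m, n = m + 2 := ⟨n - 2, by omega⟩
  refine ⟨fun h => unique (by omega) h, fun h => ⟨?_, ?_, ?_, ?_⟩⟩
  · rw [h _ MeasurableSet.empty isBounded_empty, measure_empty]
  · intro A B hA hAb hB hBb hAB
    rw [h _ (hA.union hB) (hAb.union hBb), h A hA hAb, h B hB hBb, measure_union hAB hB]
  · intro φ A hA hb
    have hm : MeasurableSet (φ '' A) := φ.toHomeomorph.measurableEmbedding.measurableSet_image.2 hA
    rw [h _ hm (φ.isometry.lipschitz.isBounded_image hb), h A hA hb]
    have e : φ '' A = (fun x => x + φ 0) '' (φ.toRealLinearIsometryEquiv '' A) := by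
      rw [image_image]
      refine image_congr (fun x _ => ?_)
      simp
    rw [e, image_add_right, measure_preimage_add_right]
    have := φ.toRealLinearIsometryEquiv.symm.measurePreserving.measure_preimage
      hA.nullMeasurableSet
    rw [← this]
    congr 1
    exact φ.toRealLinearIsometryEquiv.toEquiv.image_eq_preimage_symm A
  · rw [h _ cube_meas cube_bdd, cube_vol]

end Pool.Agent.H970Z.Rz
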