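import Pool.Agent.H970Z.Rz.Abs

/-!
Spherical slices of subsets of Euclidean space.
-/

set_option autoImplicit false

open MeasureTheory Set

namespace Pool.Agent.H970Z.Rz

open Pool.Agent.Helper557.Rz

/-- The slice of `K` at radius `r`. -/
def slice {d : ℕ} (K : Set (E d)) (r : ℝ) : Set (S d) := {θ | r • (θ : E d) ∈ K}

theorem measurable_slice {d : ℕ} (hd : 1 ≤ d) {K : Set (E d)} (hK : MeasurableSet K) :
    Measurable (fun r : ℝ => sg d (slice K r)) := by
  have := sg_prob d hd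
  have hm : MeasurableSet {q : ℝ × S d | q.1 • (q.2 : E d) ∈ K} :=
    (by fun_prop : Measurable (fun q : ℝ × S d => q.1 • (q.2 : E d))) hK
  exact measurable_measure_prodMk_left (ν := sg d) hm

theorem bad_radii (d : ℕ) (hd : 1 ≤ d) : ∃ c : ENNReal, c ≠ ⊤ ∧ ∀ K : Set (E d), MeasurableSet K →
    volume {r : ℝ | 1 ≤ r ∧ ENNReal.ofReal (1 / 8) < sg d (slice K r)} ≤ c * volume K := by
  set τ := (volume : Measure (E d)).toSphere Set.univ with hτ
  have hτ0 : τ ≠ 0 := toSphere_univ_ne_zero d hd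
  have hτ1 : τ ≠ ⊤ := measure_ne_top _ _
  have h8 : ENNReal.ofReal (1 / 8) ≠ 0 := by simp
  set a := τ * ENNReal.ofReal (1 / 8) with ha
  have ha0 : a ≠ 0 := mul_ne_zero hτ0 h8
  have ha1 : a ≠ ⊤ := ENNReal.mul_ne_top hτ1 ENNReal.ofReal_ne_top
  refine ⟨a⁻¹, ENNReal.inv_ne_top.2 ha0, fun K hK => ?_⟩
  set Bad := {r : ℝ | 1 ≤ r ∧ ENNReal.ofReal (1 / 8) < sg d (slice K r)} with hBad
  have hBm : MeasurableSet Bad :=
    (measurableSet_le measurable_const measurable_id).inter
      (measurableSet_lt measurable_const (measurable_slice hd hK))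
  set B : Set (S d × Ioi (0 : ℝ)) := {q | (q.2 : ℝ) • (q.1 : E d) ∈ K} with hB
  have hBmeas : MeasurableSet B :=
    (by fun_prop : Measurable (fun q : S d × Ioi (0 : ℝ) => (q.2 : ℝ) • (q.1 : E d))) hK
  have hmp := (volume : Measure (E d)).measurePreserving_homeomorphUnitSphereProd
  have e1 := hmp.measure_preimage hBmeas.nullMeasurableSet
  have e2 : homeomorphUnitSphereProd (E d) ⁻¹' B = Subtype.val ⁻¹' K := by
    ext x
    have hx : ‖(x : E d)‖ ≠ 0 := norm_ne_zero_iff.2 x.2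
    simp only [hB, mem_preimage, mem_ofPred_eq, homeomorphUnitSphereProd_apply_fst_coe,
      homeomorphUnitSphereProd_apply_snd_coe, smul_smul, mul_inv_cancel₀ hx, one_smul]
  have hemb : MeasurableEmbedding (Subtype.val : ({0}ᶜ : Set (E d)) → E d) :=
    MeasurableEmbedding.subtype_coe (measurableSet_singleton _).compl
  rw [e2, hemb.comap_apply, Measure.prod_apply_symm hBmeas] at e1
  have hemb' : MeasurableEmbedding (Subtype.val : Ioi (0 : ℝ) → ℝ) :=
    MeasurableEmbedding.subtype_coe measurableSet_Ioi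
  set A : Set (Ioi (0 : ℝ)) := Subtype.val ⁻¹' Bad with hA
  have hAm : MeasurableSet A := measurable_subtype_coe hBm
  have h1 : volume Bad ≤ Measure.volumeIoiPow (Module.finrank ℝ (E d) - 1) A := by
    rw [Measure.volumeIoiPow, withDensity_apply _ hAm]
    have e3 : volume Bad = Measure.comap (Subtype.val : Ioi (0 : ℝ) → ℝ) volume A := by
      rw [hemb'.comap_apply, hA, Subtype.image_preimage_coe, inter_eq_self_of_subset_right]
      intro r hr
      exact lt_of_lt_of_le one_pos hr.1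
    rw [e3, ← setLIntegral_one]
    refine setLIntegral_mono' hAm (fun r hr => ?_)
    rw [← ENNReal.ofReal_one]
    exact ENNReal.ofReal_le_ofReal (one_le_pow₀ hr.1)
  have h2 : a * Measure.volumeIoiPow (Module.finrank ℝ (E d) - 1) A ≤ volume K := by
    rw [← lintegral_indicator_const hAm]
    refine le_trans (lintegral_mono (fun r => ?_)) (e1.symm.le.trans (measure_mono ?_))
    · by_cases hr : r ∈ A
      · rw [indicator_of_mem hr]
        have h3 : ENNReal.ofReal (1 / 8) < τ⁻¹ * (volume : Measure (E d)).toSphere (slice K r) :=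
          hr.2
        calc a ≤ τ * (τ⁻¹ * (volume : Measure (E d)).toSphere (slice K r)) := by
              rw [ha]; gcongr
          _ = (volume : Measure (E d)).toSphere (slice K r) := by
              rw [← mul_assoc, ENNReal.mul_inv_cancel hτ0 hτ1, one_mul]
          _ = _ := rfl
      · rw [indicator_of_notMem hr]; exact zero_le
    · exact image_preimage_subset _ _
  calc volume Bad ≤ a⁻¹ * (a * Measure.volumeIoiPow (Module.finrank ℝ (E d) - 1) A) := by
        rw [← mul_assoc, ENNReal.inv_mul_cancel ha0 ha1, one_mul]; exact h1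
    _ ≤ _ := by gcongr

theorem line_null {N : Set ℝ} (hN : volume N = 0) {s : ℝ} (hs : 0 < s) :
    volume {t : ℝ | t / √(t ^ 2 + s) ∈ N} = 0 := by
  have hd : DifferentiableOn ℝ (fun u : ℝ => u * √s / √(1 - u ^ 2)) (N ∩ Ioo (-1) 1) := by
    intro u hu
    have h1 : 0 < 1 - u ^ 2 := by nlinarith [hu.2.1, hu.2.2]
    refine DifferentiableAt.differentiableWithinAt ?_
    refine DifferentiableAt.div (by fun_prop) ?_ (Real.sqrt_pos.2 h1).ne'
    exact DifferentiableAt.sqrt (by fun_prop) h1.ne'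
  have h0 := addHaar_image_eq_zero_of_differentiableOn_of_addHaar_eq_zero volume hd
    (measure_mono_null inter_subset_left hN)
  refine measure_mono_null (fun t ht => ?_) h0
  have h1 : 0 < t ^ 2 + s := by positivity
  have h2 : 0 < √(t ^ 2 + s) := Real.sqrt_pos.2 h1
  have h3 : |t| < √(t ^ 2 + s) := Real.lt_sqrt_of_sq_lt (by rw [sq_abs]; linarith)
  refine ⟨t / √(t ^ 2 + s), ⟨ht, ?_, ?_⟩, ?_⟩
  · rw [lt_div_iff₀ h2]; linarith [(abs_lt.1 h3).1]
  · rw [div_lt_iff₀ h2]; linarith [(abs_lt.1 h3).2]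
  · have h4 : 1 - (t / √(t ^ 2 + s)) ^ 2 = s / (t ^ 2 + s) := by
      rw [div_pow, Real.sq_sqrt h1.le]
      field_simp
      ring
    have h5 : 0 < √s := Real.sqrt_pos.2 hs
    simp only [h4, Real.sqrt_div hs.le]
    field_simp

theorem cone_null (n : ℕ) {N : Set ℝ} (hNm : MeasurableSet N) (hN : volume N = 0) :
    volume {x : E (n + 2) | x 0 / ‖x‖ ∈ N} = 0 := by
  set C := {x : E (n + 2) | x 0 / ‖x‖ ∈ N} with hC
  have hCm : MeasurableSet C :=
    (by fun_prop : Measurable (fun x : E (n + 2) => x 0 / ‖x‖)) hNm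
  have h1 := (PiLp.volume_preserving_toLp (Fin (n + 2))).measure_preimage hCm.nullMeasurableSet
  have h2 := (volume_preserving_piFinSuccAbove (fun _ : Fin (n + 2) => ℝ) 0).symm
  have hm1 : MeasurableSet ((WithLp.toLp 2 : (Fin (n + 2) → ℝ) → E (n + 2)) ⁻¹' C) :=
    (PiLp.volume_preserving_toLp (Fin (n + 2))).measurable hCm
  rw [← h1, ← h2.measure_preimage hm1.nullMeasurableSet, Measure.volume_eq_prod,
    Measure.prod_apply_symm (h2.measurable hm1)]
  refine lintegral_eq_zero_of_ae_eq_zero ?_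
  have hae : ∀ᵐ y : Fin (n + 1) → ℝ, y ≠ 0 := by
    rw [ae_iff]
    simp
  filter_upwards [hae] with y hy
  have hs : 0 < ∑ j, y j ^ 2 := by
    obtain ⟨j, hj⟩ := Function.ne_iff.1 hy
    exact Finset.sum_pos' (fun j _ => sq_nonneg _) ⟨j, Finset.mem_univ _, by
      have : y j ≠ 0 := hj
      positivity⟩
  refine measure_mono_null (fun t ht => ?_) (line_null hN hs)
  simp only [hC, mem_preimage, mem_ofPred_eq, EuclideanSpace.norm_eq, Fin.sum_univ_succ] at ht ⊢
  simpa [MeasurableEquiv.piFinSuccAbove_symm_apply, Fin.sum_univ_succ] using ht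

open scoped Pointwise in
theorem coord_ac (n : ℕ) :
    (sg (n + 2)).map (fun θ : S (n + 2) => (θ : E (n + 2)) 0) ≪ volume := by
  have hm : Measurable (fun θ : S (n + 2) => (θ : E (n + 2)) 0) := by fun_prop
  refine Measure.AbsolutelyContinuous.mk (fun N hNm hN => ?_)
  rw [Measure.map_apply hm hNm, sg, Measure.smul_apply, Measure.toSphere_apply' _ (hm hNm)]
  have : volume (Ioo (0 : ℝ) 1 • ((fun x : S (n + 2) => (x : E (n + 2))) ''
      ((fun θ : S (n + 2) => (θ : E (n + 2)) 0) ⁻¹' N))) = 0 := by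
    refine measure_mono_null ?_ (cone_null n hNm hN)
    intro x hx
    rw [Set.mem_smul] at hx
    obtain ⟨t, ht, _, ⟨θ, hθ, rfl⟩, rfl⟩ := hx
    have h1 : ‖(θ : E (n + 2))‖ = 1 := by simp
    show (t • (θ : E (n + 2))) 0 / ‖t • (θ : E (n + 2))‖ ∈ N
    rw [norm_smul, h1, mul_one, Real.norm_of_nonneg ht.1.le, PiLp.smul_apply, smul_eq_mul,
      mul_div_cancel_left₀ _ ht.1.ne']
    exact hθ
  rw [this]
  simp

theorem coord_small (n : ℕ) {ε : ENNReal} (hε : ε ≠ 0) : ∃ δ : ENNReal, 0 < δ ∧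
    ∀ W : Set ℝ, volume W < δ → sg (n + 2) {θ | (θ : E (n + 2)) 0 ∈ W} < ε := by
  have := sg_prob (n + 2) (by omega)
  have hm : Measurable (fun θ : S (n + 2) => (θ : E (n + 2)) 0) := by fun_prop
  set ν := (sg (n + 2)).map (fun θ : S (n + 2) => (θ : E (n + 2)) 0) with hν
  obtain ⟨δ, hδ, h⟩ := exists_pos_setLIntegral_lt_of_measure_lt
    (Measure.lintegral_rnDeriv_lt_top ν volume).ne hε
  refine ⟨δ, hδ, fun W hW => ?_⟩
  have h1 := h (toMeasurable volume W) (by rwa [measure_toMeasurable])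
  rw [Measure.setLIntegral_rnDeriv (coord_ac n), Measure.map_apply hm
    (measurableSet_toMeasurable _ _)] at h1
  exact lt_of_le_of_lt (measure_mono (fun θ hθ => subset_toMeasurable volume W hθ)) h1

/-- The second centre. -/
noncomputable def pp (n : ℕ) : E (n + 2) := EuclideanSpace.single 0 4

theorem norm_pp (n : ℕ) : ‖pp n‖ = 4 := by simp [pp]

theorem shell_slice (n : ℕ) {ε : ENNReal} (hε : ε ≠ 0) : ∃ δ : ENNReal, 0 < δ ∧
    ∀ Q : Set ℝ, volume Q < δ → ∀ ρ : ℝ, 1 ≤ ρ →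
      sg (n + 2) (slice {y | ‖y + pp n‖ ∈ Q ∧ ‖y + pp n‖ ≤ 3} ρ) < ε := by
  obtain ⟨δ, hδ, h⟩ := coord_small n hε
  refine ⟨δ, hδ, fun Q hQ ρ hρ => ?_⟩
  have hρ0 : 0 < ρ := by linarith
  set g : ℝ → ℝ := fun r => (r ^ 2 - ρ ^ 2 - 16) / (8 * ρ) with hg
  have hL : LipschitzOnWith 1 g (Q ∩ Icc 0 3) := by
    refine LipschitzOnWith.of_dist_le_mul (fun r hr s hs => ?_)
    have e : g r - g s = (r + s) / (8 * ρ) * (r - s) := by
      simp only [hg]; field_simp; ring
    rw [Real.dist_eq, Real.dist_eq, e, abs_mul]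
    have h1 : |(r + s) / (8 * ρ)| ≤ 1 := by
      rw [abs_of_nonneg (div_nonneg (by linarith [hr.2.1, hs.2.1]) (by positivity)),
        div_le_one (by positivity)]
      linarith [hr.2.2, hs.2.2]
    simpa using mul_le_mul_of_nonneg_right h1 (abs_nonneg (r - s))
  have h1 := hL.hausdorffMeasure_image_le zero_le_one
  rw [hausdorffMeasure_real] at h1
  simp only [ENNReal.coe_one, ENNReal.one_rpow, one_mul] at h1
  have h2 := h _ (lt_of_le_of_lt (h1.trans (measure_mono inter_subset_left)) hQ)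
  refine lt_of_le_of_lt (measure_mono (fun θ hθ => ?_)) h2
  refine ⟨‖ρ • (θ : E (n + 2)) + pp n‖, ⟨hθ.1, norm_nonneg _, hθ.2⟩, ?_⟩
  have h3 : ‖(θ : E (n + 2))‖ = 1 := by simp
  have h4 : ‖ρ • (θ : E (n + 2)) + pp n‖ ^ 2 = ρ ^ 2 + 8 * ρ * (θ : E (n + 2)) 0 + 16 := by
    rw [norm_add_sq_real, norm_smul, h3, norm_pp, real_inner_smul_left, pp,
      EuclideanSpace.inner_single_right]
    simp
    ring
  simp only [hg, h4]
  field_simp
  ring

end Pool.Agent.H970Z.Rz
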